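import Pool.Agent.Helper28.ND.Spec4

/-!
# MP_0c2f33_an, swarm ND2, part SCAL: scaling of a solution
-/

set_option autoImplicit false

namespace Pool.Agent.Helper47.ND.SCAL

open Pool.Agent.Helper28.ND MeasureTheory Set

theorem RF_smul {d : ℕ} (T c : ℝ) (b : ℝ → (Fin d → ℝ) → (Fin d → ℝ))
    (f : ℝ → (Fin d → ℝ) → ℝ) (v : ℝ → (Fin d → ℝ) → (Fin d → ℝ)) :
    RF T b (fun t x => c * f t x) (fun t x i => c * v t x i) = fun s y => c * RF T b f v s y := by
  funext s y
  unfold RF
  rw [mul_sub, Finset.mul_sum]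
  congr 1
  exact Finset.sum_congr rfl fun i _ => by ring

theorem Vel_smul {d : ℕ} (S c : ℝ) (F : ℝ → (Fin d → ℝ) → ℝ) (i : Fin d) (t : ℝ)
    (x : Fin d → ℝ) : Vel S (fun s y => c * F s y) i t x = c * Vel S F i t x := by
  unfold Vel
  rw [← integral_const_mul]
  refine integral_congr_ae (Filter.Eventually.of_forall fun r => ?_)
  dsimp only
  rw [← integral_const_mul]
  refine integral_congr_ae (Filter.Eventually.of_forall fun z => ?_)
  dsimp only
  ring

theorem Phi_smul {d : ℕ} (S c : ℝ) (F : ℝ → (Fin d → ℝ) → ℝ) (t : ℝ)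
    (x : Fin d → ℝ) : Phi S (fun s y => c * F s y) t x = c * Phi S F t x := by
  unfold Phi
  rw [← integral_const_mul]
  refine integral_congr_ae (Filter.Eventually.of_forall fun r => ?_)
  dsimp only
  rw [← integral_const_mul]

theorem main : S_SCAL := by
  intro d T c b f u v _ h
  obtain ⟨B, hB⟩ := h.dat.bdd
  obtain ⟨C, hC⟩ := h.bv
  refine ⟨⟨h.dat.mb, h.dat.pb, h.dat.sb, ?_, ?_, ?_, ?_, h.dat.db⟩, ?_, ?_, ?_, ?_, ?_⟩
  · exact Measurable.const_mul h.dat.mf c
  · intro t x k
    have := h.dat.pf t x k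
    simp only [this]
  · intro t ht x
    rw [h.dat.sf t ht x, mul_zero]
  · refine ⟨(1 + |c|) * B, fun t x => ⟨?_, fun i => ?_⟩⟩
    · have hB0 : 0 ≤ B := (abs_nonneg _).trans (hB t x).1
      rw [abs_mul]
      have := mul_le_mul_of_nonneg_left (hB t x).1 (abs_nonneg c)
      nlinarith
    · have hB0 : 0 ≤ B := (abs_nonneg _).trans (hB t x).1
      have := (hB t x).2 i
      nlinarith [abs_nonneg c, mul_nonneg (abs_nonneg c) hB0]
  · have : U (fun t x i => c * v t x i) = fun z => (fun i => c * U v z i) := rfl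
    rw [this]
    exact measurable_pi_lambda _ fun i =>
      ((measurable_pi_apply i).comp h.mv).const_mul c
  · intro t x k
    have := h.pv t x k
    simp only [this]
  · exact ⟨|c| * C, fun t x i => by
      rw [abs_mul]; exact mul_le_mul_of_nonneg_left (hC t x i) (abs_nonneg c)⟩
  · intro t x i
    rw [RF_smul, Vel_smul, ← h.ev]
  · intro t x
    rw [RF_smul, Phi_smul, ← h.eu]

end Pool.Agent.Helper47.ND.SCAL
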