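import Pool.Agent.Helper47.ND.TQ2

/-!
# MP_0c2f33_an, swarm ND2, part TESTQ: the weak equation on the quarter cell
-/

set_option autoImplicit false

open MeasureTheory Set Filter Topology
open scoped ENNReal NNReal

namespace Pool.Agent.Helper47.ND.TQ

open Pool.Agent.Helper28.ND

noncomputable section

variable {g : ℝ → V → ℝ}

theorem R_cont : Continuous R := by
  rw [continuous_pi_iff]
  intro i
  by_cases hi : i = 0
  · subst hi
    have : Continuous fun x : V => 1 / 2 - x 0 := continuous_const.sub (continuous_apply (0 : Fin 2))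
    exact this
  · have h1 : i = 1 := by omega
    subst h1
    have : Continuous fun x : V => x 1 := continuous_apply (1 : Fin 2)
    exact this

theorem R_inj : Function.Injective R := fun x y h => by
  rw [← R_R x, ← R_R y, h]

theorem R_mp : MeasurePreserving R (volume : Measure V) volume := by
  have h := MeasureTheory.volume_preserving_pi (α' := fun _ : Fin 2 => ℝ)
    (β' := fun _ : Fin 2 => ℝ) (f := fun i y => if i = 0 then 1 / 2 - y else y) (by
      intro i
      by_cases hi : i = 0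
      · subst hi
        simp only [if_pos]
        exact Measure.measurePreserving_sub_left volume (1 / 2)
      · simp only [if_neg hi]
        exact MeasurePreserving.id volume)
  have e : R = fun (a : V) (i : Fin 2) => if i = 0 then 1 / 2 - a i else a i := by
    funext a i
    fin_cases i <;> simp [R]
  rw [e]
  exact h

theorem ae_ne (c : ℝ) : ∀ᵐ x : V, x 0 ≠ c := by
  rw [ae_iff, volume_pi]
  have := Measure.pi_hyperplane (fun _ : Fin 2 => (volume : Measure ℝ)) 0 c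
  simpa using this

theorem meas_Q4 : MeasurableSet Q4 := by
  unfold Q4
  have h0 : Measurable fun x : V => x 0 := measurable_pi_apply 0
  have h1 : Measurable fun x : V => x 1 := measurable_pi_apply 1
  exact (measurableSet_lt measurable_const h0).inter ((measurableSet_lt h0 measurable_const).inter
    ((measurableSet_lt measurable_const h1).inter (measurableSet_le h1 measurable_const)))

theorem meas_Q : MeasurableSet (Q 2) := by
  unfold Q
  exact MeasurableSet.univ_pi fun _ => measurableSet_Ioc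

theorem Q4_sub : Q4 ⊆ Q 2 := by
  intro x hx i _
  obtain ⟨h1, h2, h3, h4⟩ := hx
  fin_cases i
  · exact ⟨h1, (by linarith : x 0 ≤ 1)⟩
  · exact ⟨h3, h4⟩

theorem vol_Q : volume (Q 2) < ⊤ := by
  unfold Q
  rw [volume_pi_pi]
  simp

theorem vol_Q4 : volume Q4 < ⊤ := (measure_mono Q4_sub).trans_lt vol_Q

theorem fold {I : V → ℝ} (hI : IntegrableOn I (Q 2))
    (h0 : ∀ x : V, 1 / 2 < x 0 → x 0 < 1 → I x = 0) (hR : ∀ x, I (R x) = I x) :
    ∫ x in Q 2, I x = 2 * ∫ x in Q4, I x := by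
  have hS2 : MeasurableSet (R ⁻¹' Q4) := R_cont.measurable meas_Q4
  have sub2 : R ⁻¹' Q4 ⊆ Q 2 := by
    intro x hx i _
    obtain ⟨h1, h2, h3, h4⟩ := hx
    simp only [R, Matrix.cons_val_zero, Matrix.cons_val_one] at h1 h2 h3 h4
    fin_cases i
    · exact ⟨by simp only [Fin.zero_eta]; linarith, by simp only [Fin.zero_eta]; linarith⟩
    · exact ⟨h3, h4⟩
  have hdis : Disjoint Q4 (R ⁻¹' Q4) := by
    rw [Set.disjoint_left]
    intro x hx hx2
    obtain ⟨h1, h2, -, -⟩ := hx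
    obtain ⟨h3, h4, -, -⟩ := hx2
    simp only [R, Matrix.cons_val_zero] at h3 h4
    linarith
  have e1 : ∫ x in Q 2, I x = ∫ x in Q4 ∪ R ⁻¹' Q4, I x := by
    refine setIntegral_eq_of_subset_of_ae_sdiff_eq_zero meas_Q.nullMeasurableSet
      (Set.union_subset Q4_sub sub2) ?_
    filter_upwards [ae_ne (1 / 4), ae_ne (1 / 2), ae_ne 1] with x hx1 hx2 hx3 hx
    have hq := hx.1
    have hq0 := hq 0 (Set.mem_univ _)
    have hq1 := hq 1 (Set.mem_univ _)
    have hlt : x 0 < 1 := lt_of_le_of_ne hq0.2 hx3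
    rcases lt_or_gt_of_ne hx2 with h | h
    · exfalso
      rcases lt_or_gt_of_ne hx1 with h' | h'
      · exact hx.2 (Or.inl ⟨hq0.1, h', hq1.1, hq1.2⟩)
      · refine hx.2 (Or.inr ⟨?_, ?_, ?_, ?_⟩)
        · simp only [R, Matrix.cons_val_zero]; linarith
        · simp only [R, Matrix.cons_val_zero]; linarith
        · exact hq1.1
        · exact hq1.2
    · exact h0 x h hlt
  have e2 : ∫ x in R ⁻¹' Q4, I x = ∫ x in Q4, I x := by
    rw [← R_mp.setIntegral_preimage_emb (R_cont.measurableEmbedding R_inj) I Q4]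
    exact setIntegral_congr_fun hS2 fun x _ => (hR x).symm
  rw [e1, setIntegral_union hdis hS2 (hI.mono_set Q4_sub) (hI.mono_set sub2), e2]
  ring

/-! ### bounds and measurability -/

theorem bd_cont {k : ℝ × V → ℝ} (hk : Continuous k) (T : ℝ) : ∃ C : ℝ, 0 ≤ C ∧
    ∀ r ∈ Icc (0 : ℝ) T, ∀ x : V, (∀ i, x i ∈ Icc (0 : ℝ) 1) → |k (r, x)| ≤ C := by
  obtain ⟨C, hC⟩ := (isCompact_Icc.prod (isCompact_univ_pi fun _ : Fin 2 =>
    isCompact_Icc (a := (0 : ℝ)) (b := 1))).exists_bound_of_continuousOn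
      (s := Icc (0 : ℝ) T ×ˢ Set.pi Set.univ fun _ : Fin 2 => Icc (0 : ℝ) 1) hk.continuousOn
  exact ⟨max C 0, le_max_right _ _, fun r hr x hx =>
    (hC (r, x) ⟨hr, fun i _ => hx i⟩).trans (le_max_left _ _)⟩

theorem Q_Icc {x : V} (hx : x ∈ Q 2) (i : Fin 2) : x i ∈ Icc (0 : ℝ) 1 :=
  ⟨(hx i (Set.mem_univ _)).1.le, (hx i (Set.mem_univ _)).2⟩

theorem EE_meas {b : ℝ → V → V} {f u : ℝ → V → ℝ} (hb : Measurable (U b)) (hf : Measurable (U f))
    (hu : Measurable (U u)) (hg : ContDiff ℝ 2 (U g)) : Measurable (U (EE b f u g)) := by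
  have h1 : ContDiff ℝ 1 (U g) := hg.of_le (by norm_num)
  have hbi : ∀ i, Measurable (fun z : ℝ × V => b z.1 z.2 i) := fun i =>
    (measurable_pi_apply i).comp hb
  have hpi : ∀ i, Measurable (fun z : ℝ × V => pd i (g z.1) z.2) := fun i =>
    (cont_D1 h1 i).measurable
  have hdt : Measurable (fun z : ℝ × V => dt g z.1 z.2) := (cont_dt h1).measurable
  have hlap : Measurable (fun z : ℝ × V => lap (g z.1) z.2) := (cont_lap hg).measurable
  have hg' : Measurable (fun z : ℝ × V => g z.1 z.2) := hg.continuous.measurable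
  have : U (EE b f u g) = fun z => u z.1 z.2 * (dt g z.1 z.2 + (∑ i, b z.1 z.2 i * pd i (g z.1) z.2)
      + lap (g z.1) z.2) + f z.1 z.2 * g z.1 z.2 := rfl
  rw [this]
  exact (Measurable.mul hu ((hdt.add (Finset.measurable_sum _ fun i _ => (hbi i).mul (hpi i))).add
    hlap)).add (Measurable.mul hf hg')

theorem EE_bd {b : ℝ → V → V} {f u : ℝ → V → ℝ} {B Bu : ℝ}
    (hB : ∀ t x, |f t x| ≤ B ∧ ∀ i, |b t x i| ≤ B) (hu : ∀ t x, |u t x| ≤ Bu)
    (hg : ContDiff ℝ 2 (U g)) (T : ℝ) : ∃ K : ℝ, 0 ≤ K ∧ ∀ r ∈ Icc (0 : ℝ) T, ∀ x ∈ Q 2,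
      |EE b f u g r x| ≤ K := by
  have h1 : ContDiff ℝ 1 (U g) := hg.of_le (by norm_num)
  obtain ⟨C1, hC1, k1⟩ := bd_cont (cont_dt h1) T
  obtain ⟨C2, hC2, k2⟩ := bd_cont (cont_D1 h1 0) T
  obtain ⟨C3, hC3, k3⟩ := bd_cont (cont_D1 h1 1) T
  obtain ⟨C4, hC4, k4⟩ := bd_cont (cont_lap hg) T
  obtain ⟨C5, hC5, k5⟩ := bd_cont hg.continuous T
  have hBp : 0 ≤ B := (abs_nonneg _).trans (hB 0 0).1
  have hBu : 0 ≤ Bu := (abs_nonneg _).trans (hu 0 0)
  refine ⟨Bu * (C1 + (B * C2 + B * C3) + C4) + B * C5, by positivity, fun r hr x hx => ?_⟩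
  have hx' := fun i => Q_Icc hx i
  unfold EE
  rw [Fin.sum_univ_two]
  have a1 : |dt g r x| ≤ C1 := k1 r hr x hx'
  have a2 : |pd 0 (g r) x| ≤ C2 := k2 r hr x hx'
  have a3 : |pd 1 (g r) x| ≤ C3 := k3 r hr x hx'
  have a4 : |lap (g r) x| ≤ C4 := k4 r hr x hx'
  have a5 : |g r x| ≤ C5 := k5 r hr x hx'
  have b1 : |b r x 0 * pd 0 (g r) x| ≤ B * C2 := by
    rw [abs_mul]; exact mul_le_mul ((hB r x).2 0) a2 (abs_nonneg _) hBp
  have b2 : |b r x 1 * pd 1 (g r) x| ≤ B * C3 := by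
    rw [abs_mul]; exact mul_le_mul ((hB r x).2 1) a3 (abs_nonneg _) hBp
  have b3 : |f r x * g r x| ≤ B * C5 := by
    rw [abs_mul]; exact mul_le_mul (hB r x).1 a5 (abs_nonneg _) hBp
  have b4 : |dt g r x + (b r x 0 * pd 0 (g r) x + b r x 1 * pd 1 (g r) x) + lap (g r) x|
      ≤ C1 + (B * C2 + B * C3) + C4 := by
    refine (abs_add_le _ _).trans (add_le_add ?_ a4)
    refine (abs_add_le _ _).trans (add_le_add a1 ?_)
    exact (abs_add_le _ _).trans (add_le_add b1 b2)
  refine (abs_add_le _ _).trans (add_le_add ?_ b3)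
  rw [abs_mul]
  exact mul_le_mul (hu r x) b4 (abs_nonneg _) hBu

theorem u_wall {u : V → ℝ} {C : ℝ} (hs : Sym u) (hC : ∀ x y, |u x - u y| ≤ C * ‖x - y‖)
    (hC0 : 0 ≤ C) {x : V} (hx : 0 ≤ x 0) : |u x| ≤ C * x 0 := by
  have h1 : u ![0, x 1] = 0 := by
    have := hs.1 ![0, x 1]
    simp only [Matrix.cons_val_zero, Matrix.cons_val_one, neg_zero] at this
    linarith
  have h2 := hC x ![0, x 1]
  rw [h1, sub_zero] at h2
  refine h2.trans (mul_le_mul_of_nonneg_left ?_ hC0)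
  rw [pi_norm_le_iff_of_nonneg hx]
  intro i
  fin_cases i
  · simp [abs_of_nonneg hx]
  · simpa using hx

theorem g_wall (hg : T4 g) (T : ℝ) : ∃ C : ℝ, 0 ≤ C ∧ ∀ r ∈ Icc (0 : ℝ) T, ∀ x ∈ Q 2,
    |g r x| ≤ C * x 0 := by
  have h1 : ContDiff ℝ 1 (U g) := hg.smooth.of_le (by norm_num)
  obtain ⟨C, hC, k⟩ := bd_cont (cont_D1 h1 0) T
  refine ⟨C, hC, fun r hr x hx => ?_⟩
  have hx0 := Q_Icc hx 0
  have hx1 := Q_Icc hx 1
  have hd : ∀ y ∈ Icc (0 : ℝ) 1, HasDerivWithinAt (fun y : ℝ => g r ![y, x 1])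
      (pd 0 (g r) ![y, x 1]) (Icc (0 : ℝ) 1) y := by
    intro y _
    have e1 : HasDerivAt (fun y : ℝ => (![y, x 1] : V)) (Pi.single 0 1) y := by
      rw [hasDerivAt_pi]
      intro i
      fin_cases i
      · show HasDerivAt (fun y : ℝ => y) ((Pi.single 0 1 : V) 0) y
        rw [Pi.single_eq_same]
        exact hasDerivAt_id y
      · show HasDerivAt (fun y : ℝ => x 1) ((Pi.single 0 1 : V) 1) y
        rw [Pi.single_eq_of_ne (by norm_num)]
        exact hasDerivAt_const y (x 1)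
    have e2 := (diff_sl h1 r ![y, x 1]).hasFDerivAt.comp_hasDerivAt y e1
    exact e2.hasDerivWithinAt
  have h2 := Convex.norm_image_sub_le_of_norm_hasDerivWithin_le hd (C := C) (fun y hy => by
    have := k r hr ![y, x 1] (fun i => by fin_cases i <;> [exact hy; exact hx1])
    exact this) (convex_Icc 0 1) (x := 0) (y := x 0) ⟨le_refl _, zero_le_one⟩ hx0
  have h3 : g r ![0, x 1] = 0 := hg.wall r ![0, x 1] (by simp)
  have h4 : (![x 0, x 1] : V) = x := by ext i; fin_cases i <;> rfl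
  rw [h3, h4, sub_zero, sub_zero, Real.norm_eq_abs, Real.norm_eq_abs, abs_of_nonneg hx0.1] at h2
  exact h2

/-! ### limits -/

theorem lim_slice {F : ℕ → V → ℝ} {G : V → ℝ} {K : ℝ} (hm : ∀ n, Measurable (F n))
    (hb : ∀ n, ∀ x ∈ Q4, |F n x| ≤ K) (hl : ∀ x ∈ Q4, ∀ᶠ n in atTop, F n x = G x) :
    Tendsto (fun n => ∫ x in Q4, F n x) atTop (𝓝 (∫ x in Q4, G x)) := by
  have : IsFiniteMeasure (volume.restrict Q4) := ⟨by simpa using vol_Q4⟩
  refine tendsto_integral_of_dominated_convergence (fun _ => K)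
    (fun n => (hm n).aestronglyMeasurable) (integrable_const _) (fun n => ?_) ?_
  · filter_upwards [ae_restrict_mem meas_Q4] with x hx
    exact hb n x hx
  · filter_upwards [ae_restrict_mem meas_Q4] with x hx
    exact tendsto_const_nhds.congr' ((hl x hx).mono fun n hn => hn.symm)

theorem HH_cd (hg : ContDiff ℝ 2 (U g)) (n : ℕ) : ContDiff ℝ 2 (U (HH n g)) := by
  have h1 : ContDiff ℝ 2 (fun z : ℝ × V => ch n (z.2 0)) := (ch_cd n).comp (by fun_prop)
  exact h1.mul hg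

end

end Pool.Agent.Helper47.ND.TQ

namespace Pool.Agent.Helper47.ND.TESTQ

open Pool.Agent.Helper28.ND Pool.Agent.Helper47.ND.TQ

theorem main (hF : S_FTEST) (hR : S_FREG) : S_TESTQ := by
  intro T b f u v hT hS hu hf hb g hg s t hs hst htT
  obtain ⟨⟨mu, pu, Bu, hBu⟩, -, ⟨Cu', hCu'⟩, -⟩ := hR 2 T b f u v hT hS
  obtain ⟨B, hB⟩ := hS.dat.bdd
  have mb := hS.dat.mb
  have mf := hS.dat.mf
  obtain ⟨Cu, hCu0, hCu⟩ : ∃ C : ℝ, 0 ≤ C ∧ ∀ t x y, |u t x - u t y| ≤ C * ‖x - y‖ :=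
    ⟨max Cu' 0, le_max_right _ _, fun t x y => (hCu' t x y).trans
      (mul_le_mul_of_nonneg_right (le_max_left _ _) (norm_nonneg _))⟩
  have hBp : 0 ≤ B := (abs_nonneg _).trans (hB 0 0).1
  have hBup : 0 ≤ Bu := (abs_nonneg _).trans (hBu 0 0)
  have hg1 : ContDiff ℝ 1 (U g) := hg.smooth.of_le (by norm_num)
  have : IsFiniteMeasure (volume.restrict (Q 2)) := ⟨by simpa using vol_Q⟩
  have sl : ∀ {k : ℝ → V → ℝ}, Measurable (U k) → ∀ r, Measurable (k r) := fun hk r =>
    hk.comp (measurable_const.prodMk measurable_id)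
  have hsT : s ∈ Icc (0 : ℝ) T := ⟨hs, hst.trans htT⟩
  have htT' : t ∈ Icc (0 : ℝ) T := ⟨hs.trans hst, htT⟩
  -- slices
  have slice : ∀ n : ℕ, 16 ≤ n → ∀ r ∈ Icc (0 : ℝ) T,
      ∫ x in Q 2, u r x * GG n g r x = 2 * ∫ x in Q4, u r x * HH n g r x := by
    intro n hn r hr
    have hG := GG_cd hg hn
    obtain ⟨C, hC, kC⟩ := bd_cont hG.continuous T
    rw [fold]
    · congr 1
      exact setIntegral_congr_fun meas_Q4 fun x hx => by
        simp only [GG_HH hx.1.le hx.2.1.le]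
    · refine Measure.integrableOn_of_bounded (M := Bu * C) vol_Q.ne
        (((sl mu r).mul (sl hG.continuous.measurable r)).aestronglyMeasurable) ?_
      filter_upwards [ae_restrict_mem meas_Q] with x hx
      rw [Real.norm_eq_abs, abs_mul]
      exact mul_le_mul (hBu r x) (kC r hr x (Q_Icc hx)) (abs_nonneg _) hBup
    · intro x h0 h1
      rw [GG_zero (aa_nonpos h0.le h1.le), mul_zero]
    · intro x
      rw [GG_R]
      have : u r (TQ.R x) = u r x := (hu r).2 x
      rw [this]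
  have sliceE : ∀ n : ℕ, 16 ≤ n → ∀ r ∈ Icc (0 : ℝ) T,
      ∫ x in Q 2, EE b f u (GG n g) r x = 2 * ∫ x in Q4, EE b f u (HH n g) r x := by
    intro n hn r hr
    have hG := GG_cd hg hn
    obtain ⟨K, hK, kK⟩ := EE_bd hB hBu hG T
    rw [fold]
    · congr 1
      exact setIntegral_congr_fun meas_Q4 fun x hx => EE_GG b f u n r hx.1 hx.2.1
    · refine Measure.integrableOn_of_bounded (M := K) vol_Q.ne
        ((sl (EE_meas mb mf mu hG) r).aestronglyMeasurable) ?_
      filter_upwards [ae_restrict_mem meas_Q] with x hx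
      exact kK r hr x hx
    · intro x h0 h1
      exact EE_GG0 b f u n r h0 h1
    · intro x
      exact EE_R hG (GG_R n) hu hf hb r x
  have key : ∀ n : ℕ, 16 ≤ n → ∫ x in Q4, u t x * HH n g t x
      = (∫ x in Q4, u s x * HH n g s x) + ∫ r in Ioc s t, ∫ x in Q4, EE b f u (HH n g) r x := by
    intro n hn
    have h1 := hF 2 T b f u v hT hS (GG n g) (GG_cd hg hn) (GG_per hg n) s t hs hst htT
    have h2 : ∫ r in Ioc s t, ∫ x in Q 2, EE b f u (GG n g) r x
        = 2 * ∫ r in Ioc s t, ∫ x in Q4, EE b f u (HH n g) r x := by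
      rw [← integral_const_mul]
      exact setIntegral_congr_fun measurableSet_Ioc fun r hr =>
        sliceE n hn r ⟨hs.trans hr.1.le, hr.2.trans htT⟩
    have h3 : ∫ x in Q 2, u t x * GG n g t x = (∫ x in Q 2, u s x * GG n g s x)
      + ∫ r in Ioc s t, ∫ x in Q 2, EE b f u (GG n g) r x := h1
    rw [slice n hn t htT', slice n hn s hsT, h2] at h3
    linarith
  -- limits
  obtain ⟨Cg, hCg, kg⟩ := bd_cont hg.smooth.continuous T
  have mHH : ∀ n, Measurable (U (HH n g)) := fun n => (HH_cd hg.smooth n).continuous.measurable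
  have lim1 : ∀ r ∈ Icc (0 : ℝ) T, Tendsto (fun n => ∫ x in Q4, u r x * HH n g r x) atTop
      (𝓝 (∫ x in Q4, u r x * g r x)) := by
    intro r hr
    refine lim_slice (K := Bu * Cg) (fun n => (sl mu r).mul (sl (mHH n) r)) ?_ ?_
    · intro n x hx
      rw [abs_mul]
      refine mul_le_mul (hBu r x) ?_ (abs_nonneg _) hBup
      unfold HH
      rw [abs_mul]
      calc |ch n (x 0)| * |g r x| ≤ 1 * Cg :=
            mul_le_mul (ch_abs n _) (kg r hr x (Q_Icc (Q4_sub hx))) (abs_nonneg _) zero_le_one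
        _ = Cg := one_mul _
    · intro x hx
      filter_upwards [ch_ev hx.1] with n hn
      unfold HH
      rw [hn.1, one_mul]
  obtain ⟨K0, hK0, kK0⟩ := EE_bd hB hBu hg.smooth T
  obtain ⟨Cw, hCw, kw⟩ := g_wall hg T
  obtain ⟨Cp, hCp, kp⟩ := bd_cont (cont_D1 hg1 0) T
  obtain ⟨Cc, hCc, kc⟩ := ch_bd
  have bdE : ∀ n : ℕ, ∀ r ∈ Icc (0 : ℝ) T, ∀ x ∈ Q4, |EE b f u (HH n g) r x|
      ≤ K0 + Cc * (Cu * (B * Cg + 2 * Cp)) + Cc * (Cu * Cw) := by
    intro n r hr x hx
    have hxQ := Q4_sub hx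
    have hx0 : 0 < x 0 := hx.1
    rw [EE_HH b f u hg.smooth]
    have u1 := u_wall (hu r) (hCu r) hCu0 hx0.le
    have g1 := kw r hr x hxQ
    have g2 : |g r x| ≤ Cg := kg r hr x (Q_Icc hxQ)
    have p1 : |pd 0 (g r) x| ≤ Cp := kp r hr x (Q_Icc hxQ)
    obtain ⟨c1, c2⟩ := kc n (x 0) hx0
    have A1 : |ch n (x 0) * EE b f u g r x| ≤ K0 := by
      rw [abs_mul]
      calc |ch n (x 0)| * |EE b f u g r x| ≤ 1 * K0 :=
            mul_le_mul (ch_abs n _) (kK0 r hr x hxQ) (abs_nonneg _) zero_le_one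
        _ = K0 := one_mul _
    have A2 : |b r x 0 * g r x + 2 * pd 0 (g r) x| ≤ B * Cg + 2 * Cp := by
      refine (abs_add_le _ _).trans (add_le_add ?_ ?_)
      · rw [abs_mul]; exact mul_le_mul ((hB r x).2 0) g2 (abs_nonneg _) hBp
      · rw [abs_mul, abs_two]; linarith
    have A3 : |deriv (ch n) (x 0) * (u r x * (b r x 0 * g r x + 2 * pd 0 (g r) x))|
        ≤ Cc * (Cu * (B * Cg + 2 * Cp)) := by
      rw [abs_mul, abs_mul]
      calc |deriv (ch n) (x 0)| * (|u r x| * |b r x 0 * g r x + 2 * pd 0 (g r) x|)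
          ≤ |deriv (ch n) (x 0)| * ((Cu * x 0) * (B * Cg + 2 * Cp)) := by
            refine mul_le_mul_of_nonneg_left ?_ (abs_nonneg _)
            exact mul_le_mul u1 A2 (abs_nonneg _) (by positivity)
        _ = (|deriv (ch n) (x 0)| * x 0) * (Cu * (B * Cg + 2 * Cp)) := by ring
        _ ≤ Cc * (Cu * (B * Cg + 2 * Cp)) := mul_le_mul_of_nonneg_right c1 (by positivity)
    have A4 : |deriv (deriv (ch n)) (x 0) * (u r x * g r x)| ≤ Cc * (Cu * Cw) := by
      rw [abs_mul, abs_mul]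
      calc |deriv (deriv (ch n)) (x 0)| * (|u r x| * |g r x|)
          ≤ |deriv (deriv (ch n)) (x 0)| * ((Cu * x 0) * (Cw * x 0)) := by
            refine mul_le_mul_of_nonneg_left ?_ (abs_nonneg _)
            exact mul_le_mul u1 g1 (abs_nonneg _) (by positivity)
        _ = (|deriv (deriv (ch n)) (x 0)| * x 0 ^ 2) * (Cu * Cw) := by ring
        _ ≤ Cc * (Cu * Cw) := mul_le_mul_of_nonneg_right c2 (by positivity)
    exact (abs_add_le _ _).trans (add_le_add ((abs_add_le _ _).trans (add_le_add A1 A3)) A4)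
  have mE : ∀ n, Measurable (U (EE b f u (HH n g))) := fun n =>
    EE_meas mb mf mu (HH_cd hg.smooth n)
  have lim2 : ∀ r ∈ Icc (0 : ℝ) T, Tendsto (fun n => ∫ x in Q4, EE b f u (HH n g) r x) atTop
      (𝓝 (∫ x in Q4, EE b f u g r x)) := by
    intro r hr
    refine lim_slice (fun n => sl (mE n) r) (fun n x hx => bdE n r hr x hx) ?_
    intro x hx
    filter_upwards [ch_ev hx.1] with n hn
    rw [EE_HH b f u hg.smooth, hn.1, hn.2.1, hn.2.2]
    ring
  have : IsFiniteMeasure (volume.restrict Q4) := ⟨by simpa using vol_Q4⟩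
  have lim3 : Tendsto (fun n => ∫ r in Ioc s t, ∫ x in Q4, EE b f u (HH n g) r x) atTop
      (𝓝 (∫ r in Ioc s t, ∫ x in Q4, EE b f u g r x)) := by
    refine tendsto_integral_of_dominated_convergence
      (fun _ => (K0 + Cc * (Cu * (B * Cg + 2 * Cp)) + Cc * (Cu * Cw)) * (volume Q4).toReal)
      (fun n => ?_) (integrable_const _) (fun n => ?_) ?_
    · exact ((mE n).stronglyMeasurable.integral_prod_right'
        (ν := volume.restrict Q4)).aestronglyMeasurable
    · filter_upwards [ae_restrict_mem measurableSet_Ioc] with r hr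
      have := norm_setIntegral_le_of_norm_le_const (μ := (volume : Measure V)) (s := Q4)
        (f := fun x => EE b f u (HH n g) r x) vol_Q4
        (fun x hx => bdE n r ⟨hs.trans hr.1.le, hr.2.trans htT⟩ x hx)
      exact this
    · filter_upwards [ae_restrict_mem measurableSet_Ioc] with r hr
      exact lim2 r ⟨hs.trans hr.1.le, hr.2.trans htT⟩
  have lim4 := (lim1 s hsT).add lim3
  refine tendsto_nhds_unique (lim1 t htT') (lim4.congr' ?_)
  filter_upwards [eventually_ge_atTop 16] with n hn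
  exact (key n hn).symm

end Pool.Agent.Helper47.ND.TESTQ
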