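import Pool.Agent.Helper47.ND.SCAL

/-!
# MP_0c2f33_an, swarm ND2, part FIN2: the case `d = 2`, `p ≥ 2`
-/

set_option autoImplicit false

namespace Pool.Agent.Helper47.ND.FIN2

open Pool.Agent.Helper28.ND MeasureTheory Set Filter Topology
open scoped ENNReal NNReal

theorem main (hPARM : S_PARM) (hQN : S_QN) (hDRI : S_DRI) (hSRC : S_SRC) (hLBD : S_LBD)
    (hLIMIT : S_LIMIT) (hUNP : S_UNP) (hFEX : S_FEX) (hBLK : S_BLK) : S_FIN2 := by
  have hSCAL : S_SCAL := SCAL.main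
  intro T p q hT hp hq hpq
  -- the exponents are finite
  have hp_top : p ≠ ⊤ := by
    rintro rfl
    rw [ENNReal.inv_top, mul_zero, zero_add] at hpq
    have : q⁻¹ ≤ 1 := ENNReal.inv_le_one.2 ((by norm_num : (1 : ℝ≥0∞) ≤ 2).trans hq)
    exact absurd hpq (not_lt.2 this)
  have hq_top : q ≠ ⊤ := by
    rintro rfl
    rw [ENNReal.inv_top, add_zero] at hpq
    have h1 : (2 : ℝ≥0∞) * p⁻¹ ≤ 1 := by
      rw [← div_eq_mul_inv]
      exact ENNReal.div_le_of_le_mul (by rw [one_mul]; exact hp)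
    exact absurd hpq (not_lt.2 h1)
  have hp2 : 2 ≤ p.toReal := by
    have := ENNReal.toReal_mono hp_top hp
    simpa using this
  have hq2 : 2 ≤ q.toReal := by
    have := ENNReal.toReal_mono hq_top hq
    simpa using this
  have hp0 : p ≠ 0 := fun h => by rw [h] at hp; simp at hp
  have hq0 : q ≠ 0 := fun h => by rw [h] at hq; simp at hq
  have hreal : 1 < 2 / p.toReal + 1 / q.toReal := by
    have h1 : (2 * p⁻¹ + q⁻¹).toReal = 2 / p.toReal + 1 / q.toReal := by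
      rw [ENNReal.toReal_add (ENNReal.mul_ne_top (by norm_num) (ENNReal.inv_ne_top.2 hp0))
        (ENNReal.inv_ne_top.2 hq0), ENNReal.toReal_mul, ENNReal.toReal_inv, ENNReal.toReal_inv]
      simp only [ENNReal.toReal_ofNat]
      rw [div_eq_mul_inv, one_div]
    rw [← h1]
    have h2 : (2 * p⁻¹ + q⁻¹) ≠ ⊤ := ENNReal.add_ne_top.2
      ⟨ENNReal.mul_ne_top (by norm_num) (ENNReal.inv_ne_top.2 hp0), ENNReal.inv_ne_top.2 hq0⟩
    have h3 := (ENNReal.toReal_lt_toReal ENNReal.one_ne_top h2).2 hpq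
    simpa using h3
  -- the parameters
  obtain ⟨n0, N, M, hPar, hN1, hN2⟩ := hPARM (1 - 1 / q.toReal) (2 / p.toReal) T
    (by
      have : 1 / q.toReal ≤ 1 := by rw [div_le_one (by linarith)]; linarith
      linarith) (by linarith) (by rw [div_le_one (by linarith)]; exact hp2) hT
  obtain ⟨C, hC, hQ⟩ := hQN T n0 N M q.toReal hPar hq2 hN1
  obtain ⟨b, hb, hbt⟩ := hDRI T n0 N M p hPar hp hp_top hN2
  obtain ⟨et, c, het, hc, hlow⟩ := hLBD T n0 N M hPar
  have hex : ∀ K : ℕ, ∃ u v, FSol 2 T (bt n0 N M K 0) (ft n0 N M K 0) u v := fun K =>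
    hFEX 2 T _ _ hT (hBLK T n0 N M hPar K 0).1
  choose uK vK hK using hex
  set F : ℕ → ℝ := fun K => far n0 N M 0 (uK K (LL n0 N 0)) with hF
  have hFp : ∀ K, 0 < F K := fun K => (hQ K (uK K) (vK K) (hK K)).1
  have hS : ∀ K, FSol 2 T (bt n0 N M K 0) (fun t x => (F K)⁻¹ * ft n0 N M K 0 t x)
      (fun t x => (F K)⁻¹ * uK K t x) (fun t x i => (F K)⁻¹ * vK K t x i) := fun K =>
    hSCAL 2 T (F K)⁻¹ _ _ _ _ hT (hK K)
  have hsrc : ∀ g : ℝ → (Fin 2 → ℝ) → ℝ, IsTest T g →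
      Tendsto (fun K => ∫ t in Ioo 0 T, ∫ x in Q 2, (F K)⁻¹ * ft n0 N M K 0 t x * g t x) atTop
        (𝓝 0) := by
    intro g hg
    obtain ⟨Cg, hCg, hCg'⟩ := hSRC T n0 N M hPar g hg
    have e : ∀ K, ∫ t in Ioo 0 T, ∫ x in Q 2, (F K)⁻¹ * ft n0 N M K 0 t x * g t x
        = (F K)⁻¹ * ∫ t in Ioo 0 T, ∫ x in Q 2, ft n0 N M K 0 t x * g t x := by
      intro K
      simp only [mul_assoc]
      rw [← integral_const_mul]
      refine integral_congr_ae (Filter.Eventually.of_forall fun t => ?_)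
      dsimp only
      rw [← integral_const_mul]
    have hlim : Tendsto (fun K : ℕ => Cg * C * (1 / 2 : ℝ) ^ K) atTop (𝓝 0) := by
      have := (tendsto_pow_atTop_nhds_zero_of_lt_one (by norm_num : (0 : ℝ) ≤ 1 / 2)
        (by norm_num)).const_mul (Cg * C)
      simpa using this
    refine squeeze_zero_norm (fun K => ?_) hlim
    rw [e K, Real.norm_eq_abs, abs_mul, abs_of_pos (inv_pos.2 (hFp K))]
    have h1 := hCg' K
    have h2 := (hQ K (uK K) (vK K) (hK K)).2.1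
    calc (F K)⁻¹ * |∫ t in Ioo 0 T, ∫ x in Q 2, ft n0 N M K 0 t x * g t x|
        ≤ (F K)⁻¹ * (Cg * ((M : ℝ) ^ K * KC n0 N M K * rr n0 N K * rr n0 N K)) :=
          mul_le_mul_of_nonneg_left h1 (inv_pos.2 (hFp K)).le
      _ ≤ (F K)⁻¹ * (Cg * (C * (1 / 2) ^ K * F K)) :=
          mul_le_mul_of_nonneg_left (mul_le_mul_of_nonneg_left h2 hCg) (inv_pos.2 (hFp K)).le
      _ = Cg * C * (1 / 2) ^ K * ((F K)⁻¹ * F K) := by ring
      _ = Cg * C * (1 / 2) ^ K := by rw [inv_mul_cancel₀ (hFp K).ne', mul_one]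
  have hbd : ∀ K t, 0 < t → t < T →
      ∫ x in Q 2, |(F K)⁻¹ * uK K t x| ^ q.toReal ≤ C ^ q.toReal := by
    intro K t ht0 htT
    have h1 := (hQ K (uK K) (vK K) (hK K)).2.2 t ht0.le htT.le
    have hi := inv_pos.2 (hFp K)
    have e : ∀ x, |(F K)⁻¹ * uK K t x| ^ q.toReal
        = ((F K)⁻¹) ^ q.toReal * |uK K t x| ^ q.toReal := by
      intro x
      rw [abs_mul, abs_of_pos hi, Real.mul_rpow hi.le (abs_nonneg _)]
    simp only [e]
    rw [integral_const_mul]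
    calc ((F K)⁻¹) ^ q.toReal * ∫ x in Q 2, |uK K t x| ^ q.toReal
        ≤ ((F K)⁻¹) ^ q.toReal * (C * F K) ^ q.toReal :=
          mul_le_mul_of_nonneg_left h1 (Real.rpow_nonneg hi.le _)
      _ = C ^ q.toReal := by
          rw [← Real.mul_rpow hi.le (mul_nonneg hC.le (hFp K).le)]
          congr 1
          rw [mul_comm C, ← mul_assoc, inv_mul_cancel₀ (hFp K).ne', one_mul]
  have hlb : ∀ᶠ K in atTop, c ≤ ∫ t in Ioo 0 T, ∫ x in Q 2, (F K)⁻¹ * uK K t x * et t x := by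
    refine Filter.Eventually.of_forall fun K => ?_
    have h1 := hlow K (uK K) (vK K) (hK K)
    have e : ∫ t in Ioo 0 T, ∫ x in Q 2, (F K)⁻¹ * uK K t x * et t x
        = (F K)⁻¹ * ∫ t in Ioo 0 T, ∫ x in Q 2, uK K t x * et t x := by
      simp only [mul_assoc]
      rw [← integral_const_mul]
      refine integral_congr_ae (Filter.Eventually.of_forall fun t => ?_)
      dsimp only
      rw [← integral_const_mul]
    rw [e]
    have hi := inv_pos.2 (hFp K)
    calc c = (F K)⁻¹ * (c * F K) := by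
          rw [mul_comm c, ← mul_assoc, inv_mul_cancel₀ (hFp K).ne', one_mul]
      _ ≤ _ := mul_le_mul_of_nonneg_left h1 hi.le
  obtain ⟨u, hu, hcu⟩ := hLIMIT 2 T p q.toReal b (fun K => bt n0 N M K 0)
    (fun K t x => (F K)⁻¹ * ft n0 N M K 0 t x) (fun K t x => (F K)⁻¹ * uK K t x)
    (fun K t x i => (F K)⁻¹ * vK K t x i) et (C ^ q.toReal) c hT hp hq2 hb hS hbt hsrc hbd het hc hlb
  rw [ENNReal.ofReal_toReal hq_top] at hu
  refine ⟨b, fun _ => 0, u, hb, hu, fun hpar => ?_⟩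
  have h0 := hUNP 2 T p q b u hT hp hq hb hu hpar
  have h1 : ∫ t in Ioo 0 T, ∫ x in Q 2, u t x * et t x = 0 := by
    refine integral_eq_zero_of_ae ?_
    filter_upwards [h0] with t ht
    refine integral_eq_zero_of_ae ?_
    filter_upwards [ht] with x hx
    simp [hx]
  rw [h1] at hcu
  exact absurd hcu (not_le.2 hc)

end Pool.Agent.Helper47.ND.FIN2
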