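import Pool.Agent.Helper28.ND.Spec4

/-!
# MP_0c2f33_an, swarm ND2, part FULL
-/

set_option autoImplicit false

namespace Pool.Agent.Helper47.ND.FULL

open Pool.Agent.Helper28.ND
open scoped ENNReal

theorem main (hN : S_NFIN) (hF2 : S_FIN2) (hE : S_EXT) (hP : S_PFIN) : S_FULL := by
  refine ⟨?_, hP⟩
  intro d T p q hd hT hp hq hpq h
  rcases lt_or_ge p 2 with h2 | h2
  · exact hN d T p q hd hT hp ((by norm_num : (1 : ℝ≥0∞) ≤ 2).trans hq) h2
  · obtain ⟨b, u0, u, h1, h3, h4⟩ := hF2 T p q hT h2 hq h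
    exact hE T p q hT hp ((by norm_num : (1 : ℝ≥0∞) ≤ 2).trans hq) hpq b u0 u h1 h3 h4 d hd

end Pool.Agent.Helper47.ND.FULL
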