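import Pool.Agent.Helper28.ND.Spec2

/-!
# MP_0c2f33_an, swarm ND2, part TESTQ: calculus
-/

set_option autoImplicit false

open MeasureTheory Set Filter Topology
open scoped ENNReal NNReal

namespace Pool.Agent.Helper47.ND.TQ

open Pool.Agent.Helper28.ND

noncomputable section

abbrev V := Fin 2 → ℝ

variable {g h : ℝ → V → ℝ}

theorem hasF (hh : ContDiff ℝ 1 (U h)) (t : ℝ) (x : V) :
    HasFDerivAt (h t) ((fderiv ℝ (U h) (t, x)).comp (ContinuousLinearMap.inr ℝ ℝ V)) x := by
  have h1 : HasFDerivAt (U h) (fderiv ℝ (U h) (t, x)) (t, x) :=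
    (hh.differentiable (by norm_num)).differentiableAt.hasFDerivAt
  have h2 : HasFDerivAt (fun y : V => ((t, y) : ℝ × V))
      (ContinuousLinearMap.inr ℝ ℝ V) x := hasFDerivAt_prodMk_right t x
  exact HasFDerivAt.comp x h1 h2

theorem diff_sl (hh : ContDiff ℝ 1 (U h)) (t : ℝ) : Differentiable ℝ (h t) :=
  fun x => (hasF hh t x).differentiableAt

theorem pd_eq (hh : ContDiff ℝ 1 (U h)) (i : Fin 2) (t : ℝ) (x : V) :
    pd i (h t) x = fderiv ℝ (U h) (t, x) (0, Pi.single i 1) := by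
  unfold pd
  rw [(hasF hh t x).fderiv]
  simp

theorem dt_eq (hh : ContDiff ℝ 1 (U h)) (t : ℝ) (x : V) :
    dt h t x = fderiv ℝ (U h) (t, x) (1, 0) := by
  have h1 : HasFDerivAt (U h) (fderiv ℝ (U h) (t, x)) (t, x) :=
    (hh.differentiable (by norm_num)).differentiableAt.hasFDerivAt
  have h2 : HasFDerivAt (fun s : ℝ => ((s, x) : ℝ × V))
      (ContinuousLinearMap.inl ℝ ℝ V) t := hasFDerivAt_prodMk_left t x
  have h0 : HasFDerivAt (U h ∘ fun s => ((s, x) : ℝ × V))
      ((fderiv ℝ (U h) (t, x)).comp (ContinuousLinearMap.inl ℝ ℝ V)) t :=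
    HasFDerivAt.comp t h1 h2
  have h3 : HasFDerivAt (fun s => h s x)
      ((fderiv ℝ (U h) (t, x)).comp (ContinuousLinearMap.inl ℝ ℝ V)) t := h0
  unfold dt
  rw [h3.hasDerivAt.deriv]
  simp

/-- the derivative in direction `i` as a function of time and space -/
def D1 (i : Fin 2) (f : ℝ → V → ℝ) : ℝ → V → ℝ := fun t x => pd i (f t) x

theorem U_D1 (hh : ContDiff ℝ 1 (U h)) (i : Fin 2) :
    U (D1 i h) = fun z => fderiv ℝ (U h) z (0, Pi.single i 1) := by
  funext z; exact pd_eq hh i z.1 z.2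

theorem cd_D1 (hh : ContDiff ℝ 2 (U h)) (i : Fin 2) : ContDiff ℝ 1 (U (D1 i h)) := by
  rw [U_D1 (hh.of_le (by norm_num))]
  exact (hh.fderiv_right (m := 1) (by norm_num)).clm_apply contDiff_const

theorem cont_D1 (hh : ContDiff ℝ 1 (U h)) (i : Fin 2) : Continuous (U (D1 i h)) := by
  rw [U_D1 hh]
  exact (hh.continuous_fderiv (by norm_num)).clm_apply continuous_const

theorem cont_dt (hh : ContDiff ℝ 1 (U h)) : Continuous (U (dt h)) := by
  have : U (dt h) = fun z => fderiv ℝ (U h) z (1, 0) := by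
    funext z; exact dt_eq hh z.1 z.2
  rw [this]
  exact (hh.continuous_fderiv (by norm_num)).clm_apply continuous_const

theorem cont_lap (hh : ContDiff ℝ 2 (U h)) :
    Continuous (fun z : ℝ × V => lap (h z.1) z.2) := by
  have : (fun z : ℝ × V => lap (h z.1) z.2) = fun z => ∑ i, U (D1 i (D1 i h)) z := rfl
  rw [this]
  exact continuous_finsetSum _ fun i _ => cont_D1 (cd_D1 hh i) i

/-! ### products with a function of the first coordinate -/

theorem pd_cm {c : ℝ → ℝ} {k : V → ℝ} (hc : Differentiable ℝ c) (hk : Differentiable ℝ k)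
    (i : Fin 2) (x : V) :
    pd i (fun x => c (x 0) * k x) x
      = c (x 0) * pd i k x + (if i = 0 then deriv c (x 0) else 0) * k x := by
  have h1 : HasFDerivAt (fun x : V => c (x 0))
      ((deriv c (x 0)) • (ContinuousLinearMap.proj (R := ℝ) (φ := fun _ : Fin 2 => ℝ) 0)) x :=
    (hc (x 0)).hasDerivAt.comp_hasFDerivAt x (hasFDerivAt_apply 0 x)
  have h2 : HasFDerivAt (fun x : V => c (x 0) * k x) (c (x 0) • fderiv ℝ k x + k x •
      deriv c (x 0) • (ContinuousLinearMap.proj (R := ℝ) (φ := fun _ : Fin 2 => ℝ) 0)) x :=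
    h1.mul (hk x).hasFDerivAt
  unfold pd
  rw [h2.fderiv]
  simp only [add_apply, smul_apply, smul_eq_mul,
    ContinuousLinearMap.proj_apply, Pi.single_apply]
  split_ifs with h3 h4 h4
  · ring
  · exact absurd h3.symm h4
  · exact absurd h4.symm h3
  · ring

theorem lap_cm {c : ℝ → ℝ} {k : V → ℝ} (hc : ContDiff ℝ 2 c) (hk : Differentiable ℝ k)
    (hk2 : ∀ i, Differentiable ℝ (pd i k)) (x : V) :
    lap (fun x => c (x 0) * k x) x
      = c (x 0) * lap k x + 2 * deriv c (x 0) * pd 0 k x + deriv (deriv c) (x 0) * k x := by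
  have hc1 : Differentiable ℝ c := hc.differentiable (by norm_num)
  have hc2 : Differentiable ℝ (deriv c) :=
    (hc.differentiable_deriv_two)
  have e0 : pd 0 (fun x => c (x 0) * k x)
      = fun x => c (x 0) * pd 0 k x + deriv c (x 0) * k x := by
    funext y; rw [pd_cm hc1 hk]; simp
  have e1 : pd 1 (fun x => c (x 0) * k x) = fun x => c (x 0) * pd 1 k x := by
    funext y; rw [pd_cm hc1 hk]; simp
  have hadd : ∀ (p q : V → ℝ), Differentiable ℝ p → Differentiable ℝ q → ∀ i y,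
      pd i (fun x => p x + q x) y = pd i p y + pd i q y := by
    intro p q hp hq i y
    unfold pd
    rw [fderiv_fun_add (hp y) (hq y)]
    rfl
  have dcx : ∀ c' : ℝ → ℝ, Differentiable ℝ c' → Differentiable ℝ (fun x : V => c' (x 0)) :=
    fun c' h => h.comp (by fun_prop)
  unfold lap
  rw [Fin.sum_univ_two, Fin.sum_univ_two, e0, e1,
    hadd (fun x => c (x 0) * pd 0 k x) (fun x => deriv c (x 0) * k x) ((dcx _ hc1).mul (hk2 0))
      ((dcx _ hc2).mul hk),
    pd_cm hc1 (hk2 0), pd_cm hc2 hk, pd_cm hc1 (hk2 1)]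
  simp
  ring

/-! ### the reflection -/

/-- the reflection in the line `x 0 = 1 / 4` -/
def R (x : V) : V := ![1 / 2 - x 0, x 1]

theorem R_R (x : V) : R (R x) = x := by
  ext i; fin_cases i <;> simp [R]

def Rl : V →L[ℝ] V := ContinuousLinearMap.pi fun i =>
  if i = 0 then -(ContinuousLinearMap.proj (R := ℝ) (φ := fun _ : Fin 2 => ℝ) 0)
  else (ContinuousLinearMap.proj (R := ℝ) (φ := fun _ : Fin 2 => ℝ) 1)

theorem hasF_R (x : V) : HasFDerivAt R Rl x := by
  have h : HasFDerivAt (fun (x : V) (i : Fin 2) => R x i) Rl x := by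
    unfold Rl
    refine hasFDerivAt_pi.2 fun i => ?_
    by_cases hi : i = 0
    · subst hi
      rw [if_pos rfl]
      exact (hasFDerivAt_apply (𝕜 := ℝ) (F' := fun _ : Fin 2 => ℝ) 0 x).const_sub (1 / 2)
    · have h1 : i = 1 := by omega
      subst h1
      rw [if_neg (by norm_num)]
      exact hasFDerivAt_apply (𝕜 := ℝ) (F' := fun _ : Fin 2 => ℝ) 1 x
  exact h

theorem pd_R {k : V → ℝ} (hk : Differentiable ℝ k) (i : Fin 2) (x : V) :
    pd i (fun x => k (R x)) x = (if i = 0 then -1 else 1) * pd i k (R x) := by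
  have h1 : HasFDerivAt (fun x => k (R x)) ((fderiv ℝ k (R x)).comp Rl) x :=
    HasFDerivAt.comp x (hk (R x)).hasFDerivAt (hasF_R x)
  unfold pd
  rw [h1.fderiv, ContinuousLinearMap.comp_apply]
  fin_cases i
  · have : Rl (Pi.single 0 1) = -(Pi.single 0 1 : V) := by
      ext j; fin_cases j <;> simp [Rl]
    simp [this]
  · have : Rl (Pi.single 1 1) = (Pi.single 1 1 : V) := by
      ext j; fin_cases j <;> simp [Rl]
    simp [this]

theorem pd_inv {k : V → ℝ} (hk : Differentiable ℝ k) (hR : ∀ x, k (R x) = k x) (i : Fin 2) (x : V) :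
    pd i k (R x) = (if i = 0 then -1 else 1) * pd i k x := by
  have h1 : (fun x => k (R x)) = k := funext hR
  have h2 := pd_R hk i x
  rw [h1] at h2
  rw [h2]
  split_ifs <;> ring

theorem lap_inv {k : V → ℝ} (hk : Differentiable ℝ k) (hk2 : ∀ i, Differentiable ℝ (pd i k))
    (hR : ∀ x, k (R x) = k x) (x : V) : lap k (R x) = lap k x := by
  unfold lap
  refine Finset.sum_congr rfl fun i _ => ?_
  have h1 : (fun x => pd i k (R x)) = fun x => (if i = 0 then (-1 : ℝ) else 1) * pd i k x :=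
    funext fun x => pd_inv hk hR i x
  have h2 := pd_R (hk2 i) i x
  rw [h1] at h2
  have h3 : pd i (fun x => (if i = 0 then (-1 : ℝ) else 1) * pd i k x) x
      = (if i = 0 then (-1 : ℝ) else 1) * pd i (pd i k) x := by
    have h4 : HasFDerivAt (fun x => (if i = 0 then (-1 : ℝ) else 1) * pd i k x)
        ((if i = 0 then (-1 : ℝ) else 1) • fderiv ℝ (pd i k) x) x :=
      (hk2 i x).hasFDerivAt.const_mul _
    unfold pd at h4 ⊢
    rw [h4.fderiv]
    rfl
  rw [h3] at h2
  split_ifs at h2 <;> linarith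

/-! ### the integrand -/

def EE (b : ℝ → V → V) (f u g : ℝ → V → ℝ) (r : ℝ) (x : V) : ℝ :=
  u r x * (dt g r x + (∑ i, b r x i * pd i (g r) x) + lap (g r) x) + f r x * g r x

theorem EE_congr (b : ℝ → V → V) (f u : ℝ → V → ℝ) {g g' : ℝ → V → ℝ} {O : Set V} (hO : IsOpen O)
    (he : ∀ t, ∀ y ∈ O, g t y = g' t y) (r : ℝ) {x : V} (hx : x ∈ O) :
    EE b f u g r x = EE b f u g' r x := by
  have h1 : ∀ t, ∀ y ∈ O, ∀ i, pd i (g t) y = pd i (g' t) y := by
    intro t y hy i
    unfold pd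
    rw [(Filter.eventuallyEq_of_mem (hO.mem_nhds hy) (he t)).fderiv_eq]
  have h2 : lap (g r) x = lap (g' r) x := by
    unfold lap
    refine Finset.sum_congr rfl fun i _ => ?_
    conv_lhs => unfold pd
    conv_rhs => unfold pd
    have := (Filter.eventuallyEq_of_mem (hO.mem_nhds hx) (fun y hy => h1 r y hy i)).fderiv_eq
      (𝕜 := ℝ)
    unfold pd at this
    rw [this]
  have h3 : dt g r x = dt g' r x := by
    unfold dt
    congr 1
    funext s
    exact he s x hx
  unfold EE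
  rw [h2, h3, he r x hx]
  simp only [h1 r x hx]

theorem EE_zero (b : ℝ → V → V) (f u : ℝ → V → ℝ) (r : ℝ) (x : V) :
    EE b f u (fun _ _ => 0) r x = 0 := by
  have h : ∀ i, pd i (fun _ : V => (0 : ℝ)) = fun _ => 0 := by
    intro i; funext y; unfold pd; simp
  unfold EE lap dt
  simp [h]

theorem EE_R {b : ℝ → V → V} {f u : ℝ → V → ℝ} (hG : ContDiff ℝ 2 (U g))
    (hR : ∀ t x, g t (R x) = g t x) (hu : ∀ t, Sym (u t)) (hf : ∀ t, Sym (f t))
    (hb : ∀ t, SymB (b t)) (r : ℝ) (x : V) : EE b f u g r (R x) = EE b f u g r x := by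
  have hd := diff_sl (hG.of_le (by norm_num)) r
  have hd2 : ∀ i, Differentiable ℝ (pd i (g r)) := fun i => diff_sl (cd_D1 hG i) r
  have h1 := pd_inv hd (hR r) 0 x
  have h2 := pd_inv hd (hR r) 1 x
  have h3 := lap_inv hd hd2 (hR r) x
  have h4 : dt g r (R x) = dt g r x := by
    unfold dt; congr 1; funext s; exact hR s x
  have h5 : u r (R x) = u r x := (hu r).2 x
  have h6 : f r (R x) = f r x := (hf r).2 x
  have h7 : b r (R x) 0 = - b r x 0 := ((hb r).2 x).1
  have h8 : b r (R x) 1 = b r x 1 := ((hb r).2 x).2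
  unfold EE
  rw [Fin.sum_univ_two, Fin.sum_univ_two, h1, h2, h3, h4, h5, h6, h7, h8, hR]
  simp

end

end Pool.Agent.Helper47.ND.TQ
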