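import Pool.Agent.Helper47.ND.TQ1

/-!
# MP_0c2f33_an, swarm ND2, part TESTQ: the cutoff and the extension
-/

set_option autoImplicit false

open MeasureTheory Set Filter Topology
open scoped ENNReal NNReal

namespace Pool.Agent.Helper47.ND.TQ

open Pool.Agent.Helper28.ND

noncomputable section

/-! ### the cutoff -/

def ch (n : ℕ) (r : ℝ) : ℝ := Real.smoothTransition ((n : ℝ) * r - 1)

theorem ch_cd (n : ℕ) : ContDiff ℝ 2 (ch n) := by
  unfold ch
  exact Real.smoothTransition.contDiff.comp (by fun_prop)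

theorem ch_zero {n : ℕ} {r : ℝ} (h : (n : ℝ) * r ≤ 1) : ch n r = 0 :=
  Real.smoothTransition.zero_of_nonpos (by linarith)

theorem ch_one {n : ℕ} {r : ℝ} (h : 2 ≤ (n : ℝ) * r) : ch n r = 1 :=
  Real.smoothTransition.one_of_one_le (by linarith)

theorem ch_abs (n : ℕ) (r : ℝ) : |ch n r| ≤ 1 := by
  unfold ch
  rw [abs_of_nonneg (Real.smoothTransition.nonneg _)]
  exact Real.smoothTransition.le_one _

theorem deriv_ch (n : ℕ) : deriv (ch n) = fun r => n * deriv Real.smoothTransition (n * r - 1) := by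
  funext r
  have h1 : HasDerivAt (fun r : ℝ => (n : ℝ) * r - 1) (n : ℝ) r := by
    simpa using ((hasDerivAt_id r).const_mul (n : ℝ)).sub_const 1
  have h2 : HasDerivAt Real.smoothTransition (deriv Real.smoothTransition (n * r - 1)) (n * r - 1) :=
    ((Real.smoothTransition.contDiff (n := 1)).differentiable (by norm_num) _).hasDerivAt
  have h3 : HasDerivAt (ch n) (deriv Real.smoothTransition (n * r - 1) * n) r := h2.comp r h1
  rw [h3.deriv, mul_comm]

theorem deriv2_ch (n : ℕ) : deriv (deriv (ch n))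
    = fun r => (n : ℝ) ^ 2 * deriv (deriv Real.smoothTransition) (n * r - 1) := by
  rw [deriv_ch]
  funext r
  have h1 : HasDerivAt (fun r : ℝ => (n : ℝ) * r - 1) (n : ℝ) r := by
    simpa using ((hasDerivAt_id r).const_mul (n : ℝ)).sub_const 1
  have h0 : ContDiff ℝ 2 Real.smoothTransition := Real.smoothTransition.contDiff
  have h2 : HasDerivAt (deriv Real.smoothTransition)
      (deriv (deriv Real.smoothTransition) (n * r - 1)) (n * r - 1) :=
    (h0.differentiable_deriv_two _).hasDerivAt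
  have h3 : HasDerivAt (fun r => (n : ℝ) * deriv Real.smoothTransition (n * r - 1))
      ((n : ℝ) * (deriv (deriv Real.smoothTransition) (n * r - 1) * n)) r :=
    (h2.comp r h1).const_mul _
  rw [h3.deriv]
  ring

theorem st_far {x : ℝ} (h : x < 0 ∨ 1 < x) : deriv Real.smoothTransition x = 0 := by
  rcases h with h | h
  · have : Real.smoothTransition =ᶠ[𝓝 x] fun _ => 0 :=
      Filter.eventually_of_mem (Iio_mem_nhds h) fun y hy =>
        Real.smoothTransition.zero_of_nonpos (le_of_lt hy)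
    rw [this.deriv_eq]; simp
  · have : Real.smoothTransition =ᶠ[𝓝 x] fun _ => 1 :=
      Filter.eventually_of_mem (Ioi_mem_nhds h) fun y hy =>
        Real.smoothTransition.one_of_one_le (le_of_lt hy)
    rw [this.deriv_eq]; simp

theorem st_far2 {x : ℝ} (h : x < 0 ∨ 1 < x) : deriv (deriv Real.smoothTransition) x = 0 := by
  rcases h with h | h
  · have : deriv Real.smoothTransition =ᶠ[𝓝 x] fun _ => 0 :=
      Filter.eventually_of_mem (Iio_mem_nhds h) fun y hy => st_far (Or.inl hy)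
    rw [this.deriv_eq]; simp
  · have : deriv Real.smoothTransition =ᶠ[𝓝 x] fun _ => 0 :=
      Filter.eventually_of_mem (Ioi_mem_nhds h) fun y hy => st_far (Or.inr hy)
    rw [this.deriv_eq]; simp

theorem st_bd : ∃ C : ℝ, 0 ≤ C ∧ ∀ x, |deriv Real.smoothTransition x| ≤ C ∧
    |deriv (deriv Real.smoothTransition) x| ≤ C := by
  have h0 : ContDiff ℝ 2 Real.smoothTransition := Real.smoothTransition.contDiff
  have c1 : Continuous (deriv Real.smoothTransition) := h0.differentiable_deriv_two.continuous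
  have c2 : Continuous (deriv (deriv Real.smoothTransition)) := by
    have h1 : ContDiff ℝ 1 (deriv Real.smoothTransition) := by
      have := (contDiff_succ_iff_deriv (n := 1) (f := Real.smoothTransition)).1 (by
        norm_num; exact h0)
      exact this.2.2
    exact h1.continuous_deriv (by norm_num)
  obtain ⟨A, hA⟩ := (isCompact_Icc (a := (0 : ℝ)) (b := 1)).exists_bound_of_continuousOn
    c1.continuousOn
  obtain ⟨B, hB⟩ := (isCompact_Icc (a := (0 : ℝ)) (b := 1)).exists_bound_of_continuousOn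
    c2.continuousOn
  refine ⟨max (max A B) 0, le_max_right _ _, fun x => ?_⟩
  by_cases hx : x ∈ Icc (0 : ℝ) 1
  · exact ⟨(hA x hx).trans ((le_max_left _ _).trans (le_max_left _ _)),
      (hB x hx).trans ((le_max_right _ _).trans (le_max_left _ _))⟩
  · have h : x < 0 ∨ 1 < x := by
      by_contra hc
      push Not at hc
      exact hx ⟨hc.1, hc.2⟩
    rw [st_far h, st_far2 h, abs_zero]
    exact ⟨le_max_right _ _, le_max_right _ _⟩

theorem ch_bd : ∃ C : ℝ, 0 ≤ C ∧ ∀ (n : ℕ) (r : ℝ), 0 < r →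
    |deriv (ch n) r| * r ≤ C ∧ |deriv (deriv (ch n)) r| * r ^ 2 ≤ C := by
  obtain ⟨C, hC, h⟩ := st_bd
  refine ⟨4 * C, by positivity, fun n r hr => ?_⟩
  rw [deriv2_ch, deriv_ch]
  have hn : (0 : ℝ) ≤ n := Nat.cast_nonneg n
  by_cases h1 : 1 < (n : ℝ) * r - 1
  · simp only [st_far (Or.inr h1), st_far2 (Or.inr h1), mul_zero, abs_zero, zero_mul]
    exact ⟨by positivity, by positivity⟩
  · push Not at h1
    have h2 : (n : ℝ) * r ≤ 2 := by linarith
    have h3 : 0 ≤ (n : ℝ) * r := by positivity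
    have h4 := h ((n : ℝ) * r - 1)
    constructor
    · dsimp only
      rw [abs_mul, abs_of_nonneg hn]
      calc (n : ℝ) * |deriv Real.smoothTransition (n * r - 1)| * r
          = (n * r) * |deriv Real.smoothTransition (n * r - 1)| := by ring
        _ ≤ 2 * C := mul_le_mul h2 h4.1 (abs_nonneg _) (by norm_num)
        _ ≤ 4 * C := by linarith
    · dsimp only
      rw [abs_mul, abs_of_nonneg (by positivity : (0 : ℝ) ≤ (n : ℝ) ^ 2)]
      have h5 : ((n : ℝ) * r) ^ 2 ≤ 4 := by nlinarith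
      calc (n : ℝ) ^ 2 * |deriv (deriv Real.smoothTransition) (n * r - 1)| * r ^ 2
          = (n * r) ^ 2 * |deriv (deriv Real.smoothTransition) (n * r - 1)| := by ring
        _ ≤ 4 * C := mul_le_mul h5 h4.2 (abs_nonneg _) (by norm_num)

theorem ch_ev {r : ℝ} (hr : 0 < r) : ∀ᶠ n : ℕ in atTop, ch n r = 1 ∧ deriv (ch n) r = 0 ∧
    deriv (deriv (ch n)) r = 0 := by
  have h : ∀ᶠ n : ℕ in atTop, 2 / r < (n : ℝ) :=
    tendsto_natCast_atTop_atTop.eventually (eventually_gt_atTop _)
  filter_upwards [h] with n hn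
  have h2 : 2 < (n : ℝ) * r := by rwa [div_lt_iff₀ hr] at hn
  refine ⟨ch_one h2.le, ?_, ?_⟩
  · rw [deriv_ch]; dsimp only; rw [st_far (Or.inr (by linarith)), mul_zero]
  · rw [deriv2_ch]; dsimp only; rw [st_far2 (Or.inr (by linarith)), mul_zero]

/-! ### the folding map -/

def aa (y : ℝ) : ℝ := Real.arcsin (Real.sin (2 * Real.pi * y)) / (2 * Real.pi)

theorem aa_int (y : ℝ) (k : ℤ) : aa (y + k) = aa y := by
  unfold aa
  have : 2 * Real.pi * (y + k) = 2 * Real.pi * y + k * (2 * Real.pi) := by ring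
  rw [this, Real.sin_add_int_mul_two_pi]

theorem aa_refl (y : ℝ) : aa (1 / 2 - y) = aa y := by
  unfold aa
  have : 2 * Real.pi * (1 / 2 - y) = Real.pi - 2 * Real.pi * y := by ring
  rw [this, Real.sin_pi_sub]

theorem aa_id {y : ℝ} (h0 : 0 ≤ y) (h1 : y ≤ 1 / 4) : aa y = y := by
  unfold aa
  have hp := Real.pi_pos
  rw [Real.arcsin_sin (by nlinarith) (by nlinarith)]
  field_simp

theorem aa_nonpos {y : ℝ} (h0 : 1 / 2 ≤ y) (h1 : y ≤ 1) : aa y ≤ 0 := by
  unfold aa
  have hp := Real.pi_pos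
  have h2 : Real.sin (2 * Real.pi * y) ≤ 0 := by
    have h3 : 0 ≤ Real.sin (2 * Real.pi * y - Real.pi) :=
      Real.sin_nonneg_of_nonneg_of_le_pi (by nlinarith) (by nlinarith)
    rw [Real.sin_sub_pi] at h3
    linarith
  exact div_nonpos_of_nonpos_of_nonneg (Real.arcsin_nonpos.2 h2) (by positivity)

theorem sin_q : Real.sin (Real.pi / 4) < 1 := by
  rw [Real.sin_pi_div_four]
  have : Real.sqrt 2 < 2 := by
    rw [Real.sqrt_lt' (by norm_num)]; norm_num
  linarith

theorem aa_large {y : ℝ} (h : Real.sin (Real.pi / 4) < Real.sin (2 * Real.pi * y)) :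
    1 / 8 ≤ aa y := by
  unfold aa
  have hp := Real.pi_pos
  have h1 := Real.monotone_arcsin h.le
  rw [Real.arcsin_sin (by linarith) (by linarith)] at h1
  rw [le_div_iff₀ (by positivity)]
  linarith

theorem aa_neg {y : ℝ} (h : Real.sin (2 * Real.pi * y) < 0) : aa y ≤ 0 := by
  unfold aa
  exact div_nonpos_of_nonpos_of_nonneg (Real.arcsin_nonpos.2 h.le) (by positivity)

variable {g : ℝ → V → ℝ}

def GG (n : ℕ) (g : ℝ → V → ℝ) (t : ℝ) (x : V) : ℝ := ch n (aa (x 0)) * g t ![aa (x 0), x 1]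

def HH (n : ℕ) (g : ℝ → V → ℝ) (t : ℝ) (x : V) : ℝ := ch n (x 0) * g t x

theorem GG_zero {n : ℕ} {x : V} (h : aa (x 0) ≤ 0) (t : ℝ) : GG n g t x = 0 := by
  unfold GG
  rw [ch_zero, zero_mul]
  nlinarith [Nat.cast_nonneg (α := ℝ) n]

theorem GG_HH {n : ℕ} {x : V} (h0 : 0 ≤ x 0) (h1 : x 0 ≤ 1 / 4) (t : ℝ) :
    GG n g t x = HH n g t x := by
  unfold GG HH
  rw [aa_id h0 h1]
  congr 2
  ext i; fin_cases i <;> rfl

theorem GG_R (n : ℕ) (t : ℝ) (x : V) : GG n g t (R x) = GG n g t x := by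
  unfold GG R
  simp only [Matrix.cons_val_zero, Matrix.cons_val_one]
  rw [aa_refl]

theorem GG_per (hg : T4 g) (n : ℕ) (t : ℝ) : Per (GG n g t) := by
  intro x k
  unfold GG
  dsimp only
  rw [aa_int]
  congr 1
  have h : Function.Periodic (fun y : ℝ => g t ![aa (x 0), y]) 1 := fun y => by
    have := hg.per t ![aa (x 0), y]
    simpa using this
  have h2 := h.int_mul (k 1) (x 1)
  simpa using h2

theorem cdv {a c : ℝ × V → ℝ} {z : ℝ × V} (ha : ContDiffAt ℝ 2 a z) (hc : ContDiffAt ℝ 2 c z) :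
    ContDiffAt ℝ 2 (fun z => (![a z, c z] : V)) z := by
  rw [contDiffAt_pi]
  intro i
  fin_cases i
  · exact ha
  · exact hc

theorem GG_cd (hg : T4 g) {n : ℕ} (hn : 16 ≤ n) : ContDiff ℝ 2 (U (GG n g)) := by
  rw [contDiff_iff_contDiffAt]
  intro z
  have hs : Continuous fun w : ℝ × V => Real.sin (2 * Real.pi * w.2 0) := by fun_prop
  have hn' : (16 : ℝ) ≤ n := by exact_mod_cast hn
  have hproj : ∀ i, ContDiffAt ℝ 2 (fun w : ℝ × V => w.2 i) z := fun i => by fun_prop
  by_cases h1 : Real.sin (Real.pi / 4) < Real.sin (2 * Real.pi * z.2 0)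
  · -- locally independent of the first coordinate
    have e : U (GG n g) =ᶠ[𝓝 z] fun w => U g (w.1, ![1 / 8, w.2 1]) := by
      filter_upwards [(isOpen_Ioi.preimage hs).mem_nhds h1] with w hw
      have h2 := aa_large hw
      unfold U GG
      dsimp only
      rw [ch_one (by nlinarith), one_mul]
      have := hg.flat w.1 ![aa (w.2 0), w.2 1] (by simpa using h2)
      simpa using this
    refine ContDiffAt.congr_of_eventuallyEq ?_ e
    refine hg.smooth.contDiffAt.comp z ?_
    exact contDiffAt_fst.prodMk (cdv contDiffAt_const (hproj 1))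
  · by_cases h3 : Real.sin (2 * Real.pi * z.2 0) < 0
    · have e : U (GG n g) =ᶠ[𝓝 z] fun _ => 0 := by
        filter_upwards [(isOpen_Iio.preimage hs).mem_nhds h3] with w hw
        exact GG_zero (aa_neg hw) w.1
      exact contDiffAt_const.congr_of_eventuallyEq e
    · have hA : Real.sin (2 * Real.pi * z.2 0) ≠ 1 := by
        intro h; rw [h] at h1; exact h1 sin_q
      have hB : Real.sin (2 * Real.pi * z.2 0) ≠ -1 := by
        intro h; rw [h] at h3; exact h3 (by norm_num)
      have h4 : ContDiffAt ℝ 2 (fun w : ℝ × V => Real.sin (2 * Real.pi * w.2 0)) z :=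
        (Real.contDiff_sin.contDiffAt).comp z (contDiffAt_const.mul (hproj 0))
      have h5 : ContDiffAt ℝ 2 (fun w : ℝ × V => aa (w.2 0)) z := by
        unfold aa
        exact ((Real.contDiffAt_arcsin hB hA).comp z h4).div_const _
      have h6 : ContDiffAt ℝ 2 (fun w : ℝ × V => ch n (aa (w.2 0))) z :=
        (ch_cd n).contDiffAt.comp z h5
      have h7 : ContDiffAt ℝ 2 (fun w : ℝ × V => U g (w.1, ![aa (w.2 0), w.2 1])) z :=
        hg.smooth.contDiffAt.comp z (contDiffAt_fst.prodMk (cdv h5 (hproj 1)))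
      exact h6.mul h7

theorem EE_GG (b : ℝ → V → V) (f u : ℝ → V → ℝ) (n : ℕ) (r : ℝ) {x : V} (h0 : 0 < x 0)
    (h1 : x 0 < 1 / 4) : EE b f u (GG n g) r x = EE b f u (HH n g) r x := by
  refine EE_congr b f u (O := {x : V | 0 < x 0 ∧ x 0 < 1 / 4}) ?_ ?_ r ⟨h0, h1⟩
  · exact (isOpen_lt continuous_const (continuous_apply 0)).inter
      (isOpen_lt (continuous_apply 0) continuous_const)
  · intro t y hy
    exact GG_HH hy.1.le hy.2.le t

theorem EE_GG0 (b : ℝ → V → V) (f u : ℝ → V → ℝ) (n : ℕ) (r : ℝ) {x : V} (h0 : 1 / 2 < x 0)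
    (h1 : x 0 < 1) : EE b f u (GG n g) r x = 0 := by
  rw [← EE_zero b f u r x]
  refine EE_congr b f u (O := {x : V | 1 / 2 < x 0 ∧ x 0 < 1}) ?_ ?_ r ⟨h0, h1⟩
  · exact (isOpen_lt continuous_const (continuous_apply 0)).inter
      (isOpen_lt (continuous_apply 0) continuous_const)
  · intro t y hy
    exact GG_zero (aa_nonpos hy.1.le hy.2.le) t

/-- the product formula -/
theorem EE_HH (b : ℝ → V → V) (f u : ℝ → V → ℝ) (hg : ContDiff ℝ 2 (U g)) (n : ℕ) (r : ℝ)
    (x : V) : EE b f u (HH n g) r x = ch n (x 0) * EE b f u g r x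
      + deriv (ch n) (x 0) * (u r x * (b r x 0 * g r x + 2 * pd 0 (g r) x))
      + deriv (deriv (ch n)) (x 0) * (u r x * g r x) := by
  have hd := diff_sl (hg.of_le (by norm_num)) r
  have hd2 : ∀ i, Differentiable ℝ (pd i (g r)) := fun i => diff_sl (cd_D1 hg i) r
  have hc : Differentiable ℝ (ch n) := (ch_cd n).differentiable (by norm_num)
  have e1 : dt (HH n g) r x = ch n (x 0) * dt g r x := by
    unfold dt HH
    have h1 : DifferentiableAt ℝ (fun s => g s x) r := by
      have : Differentiable ℝ (fun s : ℝ => U g (s, x)) :=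
        (hg.differentiable (by norm_num)).comp (by fun_prop)
      exact this r
    exact deriv_const_mul _ h1
  have e2 : ∀ i, pd i (HH n g r) x
      = ch n (x 0) * pd i (g r) x + (if i = 0 then deriv (ch n) (x 0) else 0) * g r x :=
    fun i => pd_cm hc hd i x
  have e3 : lap (HH n g r) x = _ := lap_cm (ch_cd n) hd hd2 x
  have e4 : HH n g r x = ch n (x 0) * g r x := rfl
  unfold EE
  rw [e1, e3, e4, Fin.sum_univ_two, Fin.sum_univ_two, e2, e2]
  simp
  ring

end

end Pool.Agent.Helper47.ND.TQ
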